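import Pool.Agent.Q3.Forest.Disc

set_option autoImplicit false

namespace Pool.Agent.Results.MP_b83ca4_nt.NoUniformlyDiscrete

open Pool.Agent.Q3.Forest

/-- No finite union of translated rotated copies of the triangular lattice is a uniformly
discrete dense forest; in particular the union of three copies is not. -/
theorem result (k : ℕ) (x : Fin k → ℂ) (θ : Fin k → ℝ) :
    ¬ (UnifDiscrete (TBG k x θ) ∧ DenseForest (TBG k x θ)) :=
  fun h => no_ud k x θ h.2 h.1

end Pool.Agent.Results.MP_b83ca4_nt.NoUniformlyDiscrete
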