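import Pool.Agent.Q3.Forest.Core

set_option autoImplicit false

namespace Pool.Agent.Results.MP_b83ca4_nt.SmallestK

open Pool.Agent.Q3.Forest

/-- The smallest number of translated rotated copies of the triangular lattice whose union
can be a dense forest is two; indeed any two copies with angles `0` and `π/4`, with arbitrary
translations, form a dense forest. -/
theorem result :
    IsLeast {k : ℕ | 1 ≤ k ∧ ∃ (x : Fin k → ℂ) (θ : Fin k → ℝ), DenseForest (TBG k x θ)} 2 ∧
    ∀ x : Fin 2 → ℂ, DenseForest (TBG 2 x ![0, Real.pi / 4]) := by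
  refine ⟨⟨⟨by norm_num, fun _ => 0, _, two_forest _⟩, ?_⟩, two_forest⟩
  rintro k ⟨hk, x, θ, h⟩
  by_contra hlt
  have h1 : k = 1 := by omega
  subst h1
  exact one_not x θ h

end Pool.Agent.Results.MP_b83ca4_nt.SmallestK
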